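import Pool.Agent.helper28.SN.SpecC

/-!
# Row sn:cCMP: the comparison principle
-/

set_option autoImplicit false

open scoped Pointwise ContDiff
open MeasureTheory Set Filter Topology Pool.Agent.helper83.SC Pool.Agent.helper69.SN

set_option linter.unusedVariables false

namespace Pool.Agent.helper28.SN

/-- cut-off function. -/
theorem cCMP_cut {m : ℕ} {Z O : Set (E m)} (hZ : IsCompact Z) (hO : IsOpen O) (hZO : Z ⊆ O) :
    ∃ (χ : E m → ℝ) (K N : Set (E m)), ContDiff ℝ ∞ χ ∧ IsCompact K ∧ IsOpen N ∧ Z ⊆ N ∧ N ⊆ K ∧ K ⊆ O ∧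
      (∀ x ∈ N, χ x = 1) ∧ (∀ x ∉ K, χ x = 0) := by
  obtain ⟨K, hK, hZK, hKO⟩ := exists_compact_between hZ hO hZO
  obtain ⟨f, hf1, hf0, hf⟩ := exists_contMDiffMap_one_nhds_of_subset_interior
    (n := (⊤ : ℕ∞)) (modelWithCornersSelf ℝ (E m)) hZ.isClosed hZK
  refine ⟨f, K, interior {x | f x = 1}, f.contMDiff.contDiff, hK, isOpen_interior, ?_, ?_, hKO, ?_, hf0⟩
  · intro x hx
    have h1 : ∀ᶠ y in 𝓝 x, f y = 1 := hf1.filter_mono (nhds_le_nhdsSet hx)
    exact mem_interior_iff_mem_nhds.2 h1
  · intro x hx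
    have h0 : x ∈ {x | f x = 1} := interior_subset hx
    have h1 : f x = 1 := h0
    by_contra h
    rw [hf0 x h] at h1
    exact zero_ne_one h1
  · intro x hx
    have h0 : x ∈ {x | f x = 1} := interior_subset hx
    exact h0

theorem cCMP (hREG : cREG_stmt) (hRMX : cRMX_stmt) (hLOC : cLOC_stmt) (hMCP : cMCP_stmt) (hCNT : cCNT_stmt)
    (hCLO : aCLO_stmt) (hDNN : aDNN_stmt) (hPSD : hess_psd_stmt) : cCMP_stmt := by
  intro m n a lam b u v r O ha hlam hb hu hv hO hZ hcl
  obtain ⟨θ, hθ⟩ := hREG
  set Ψ : (E m → ℝ) → E m → ℝ := fun w x => dPh (hs a lam x) r (hess b x) (hess w x) with hΨ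
  have hcont : ∀ w : E m → ℝ, ContDiff ℝ ∞ w → Continuous (Ψ w) := fun w hw =>
    hCNT a lam b w r (fun i => (ha i).1) hb.1 hw
  have hPs : ∀ x, Psd (hs a lam x) := fun x i => by
    have h1 := hPSD (ha i).1 (ha i).2 x
    exact h1.smul (hlam i)
  have hbp : ∀ x, (hess b x).PosSemidef := fun x => hPSD hb.1 hb.2 x
  set Z : Set (E m) := {x | x ∈ O ∧ v x ≤ u x} with hZd
  have hZO : Z ⊆ O := fun x hx => hx.1
  obtain ⟨χ, K, N, hχ, hK, hN, hZN, hNK, hKO, hχ1, hχ0⟩ := cCMP_cut hZ hO hZO
  -- the gap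
  have hgap : ∃ s₀ : ℝ, 0 < s₀ ∧ ∀ x ∈ K, x ∉ N → u x - v x ≤ -s₀ := by
    have hc : IsCompact (K \ N) := hK.diff hN
    rcases (K \ N).eq_empty_or_nonempty with he | hne
    · refine ⟨1, one_pos, fun x hx hx' => ?_⟩
      have : x ∈ K \ N := ⟨hx, hx'⟩
      rw [he] at this
      exact this.elim
    · obtain ⟨y, hy, hmax⟩ := hc.exists_isMaxOn hne
        ((hu.continuous.sub hv.continuous).continuousOn : ContinuousOn (fun x => u x - v x) (K \ N))
      have h1 : u y - v y < 0 := by
        by_contra h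
        push Not at h
        have : y ∈ Z := ⟨hKO hy.1, by linarith⟩
        exact hy.2 (hZN this)
      refine ⟨-(u y - v y), by linarith, fun x hx hx' => ?_⟩
      have h2 : u x - v x ≤ u y - v y := hmax (show x ∈ K \ N from ⟨hx, hx'⟩)
      linarith
  obtain ⟨s₀, hs₀, hgap⟩ := hgap
  have hintK : ∀ (w : E m → ℝ), ContDiff ℝ ∞ w → ∀ A : Set (E m), A ⊆ K → IntegrableOn (Ψ w) A :=
    fun w hw A hA => ((hcont w hw).continuousOn.integrableOn_compact hK).mono_set hA
  have hmeasL : ∀ s : ℝ, MeasurableSet {x | x ∈ N ∧ s < u x - v x} := fun s =>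
    hN.measurableSet.inter (measurableSet_lt measurable_const (hu.continuous.sub hv.continuous).measurable)
  have hmeasR : ∀ s : ℝ, MeasurableSet {x | x ∈ N ∧ -s ≤ u x - v x} := fun s =>
    hN.measurableSet.inter (measurableSet_le measurable_const (hu.continuous.sub hv.continuous).measurable)
  -- the main inequality
  have key : ∀ s : ℝ, 0 < s → s < s₀ →
      ∫ x in {x | x ∈ N ∧ s < u x - v x}, Ψ u x ≤ ∫ x in {x | x ∈ N ∧ -s ≤ u x - v x}, Ψ v x := by
    intro s hsp hss
    set w : E m → ℝ := fun x => v x + χ x * (s * θ ((u x - v x) / s)) with hw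
    have hwS : ContDiff ℝ ∞ w := by
      refine hv.add (hχ.mul (contDiff_const.mul (hθ.smooth.comp ?_)))
      exact (hu.sub hv).div_const s
    obtain ⟨hrS, hrv, hrl, hrr, hrh⟩ := hRMX θ s u v hθ hsp hu hv
    -- off N
    have hoff : ∀ x, x ∉ N → hess w x = hess v x := by
      intro x hx
      refine hLOC w v x ?_
      by_cases hxK : x ∈ K
      · have h1 := hgap x hxK hx
        have h2 : ∀ᶠ y in 𝓝 x, u y - v y < -s :=
          (hu.continuous.sub hv.continuous).continuousAt.eventually_lt continuousAt_const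
            (show u x - v x < -s by linarith)
        filter_upwards [h2] with y hy
        have h3 : (u y - v y) / s ≤ -1 := by
          rw [div_le_iff₀ hsp]
          linarith
        simp only [hw]
        rw [hθ.zero _ h3]
        ring
      · have h2 : ∀ᶠ y in 𝓝 x, y ∉ K := hK.isClosed.isOpen_compl.mem_nhds hxK
        filter_upwards [h2] with y hy
        simp only [hw]
        rw [hχ0 y hy]
        ring
    have hon : ∀ x ∈ N, hess w x = hess (rmx θ s u v) x := by
      intro x hx
      refine hLOC w _ x ?_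
      filter_upwards [hN.mem_nhds hx] with y hy
      simp only [hw, rmx]
      rw [hχ1 y hy]
      ring
    have hwv : ∀ x ∉ K, w x = v x := fun x hx => by
      simp only [hw]
      rw [hχ0 x hx]
      ring
    have hMC := hMCP a lam b w v r K hK (fun i => (ha i).1) hb.1 hwS hv hwv
    -- pointwise inequality
    set F : E m → ℝ := fun x => Ψ w x - Ψ v x with hF
    have hFint : Integrable F := by
      have hFc : Continuous F := (hcont w hwS).sub (hcont v hv)
      refine hFc.integrable_of_hasCompactSupport ?_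
      refine HasCompactSupport.intro hK fun x hx => ?_
      have h1 : hess w x = hess v x := hoff x fun h => hx (hNK h)
      simp only [hF, hΨ]
      rw [h1, sub_self]
    have hpt : ∀ x, indicator {x | x ∈ N ∧ s < u x - v x} (Ψ u) x -
        indicator {x | x ∈ N ∧ -s ≤ u x - v x} (Ψ v) x ≤ F x := by
      intro x
      by_cases hxN : x ∈ N
      · have hxO : x ∈ O := hKO (hNK hxN)
        have hB := hPs x
        obtain ⟨hconv, hadd, hnn, -⟩ := hCLO (hs a lam x) hB
        by_cases h1 : s < u x - v x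
        · have h2 : x ∈ {x | x ∈ N ∧ s < u x - v x} := ⟨hxN, h1⟩
          have h3 : x ∈ {x | x ∈ N ∧ -s ≤ u x - v x} := ⟨hxN, by linarith⟩
          rw [indicator_of_mem h2, indicator_of_mem h3]
          have h4 : hess w x = hess u x := by
            rw [hon x hxN]
            refine hLOC _ _ x ?_
            have h5 : ∀ᶠ y in 𝓝 x, s < u y - v y :=
              continuousAt_const.eventually_lt (hu.continuous.sub hv.continuous).continuousAt h1
            filter_upwards [h5] with y hy
            exact hrr y (by linarith)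
          simp only [hF, hΨ, h4]
          exact le_refl _
        · by_cases h2 : -s ≤ u x - v x
          · have h3 : x ∉ {x | x ∈ N ∧ s < u x - v x} := fun h => h1 h.2
            have h4 : x ∈ {x | x ∈ N ∧ -s ≤ u x - v x} := ⟨hxN, h2⟩
            rw [indicator_of_notMem h3, indicator_of_mem h4]
            have h5 : hess w x ∈ GG (hs a lam x) := by
              rw [hon x hxN]
              obtain ⟨t, ht0, ht1, htP⟩ := hrh x
              have h6 : (1 - t) • hess v x + t • hess u x ∈ GG (hs a lam x) :=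
                hconv (hcl x hxO).2 (hcl x hxO).1 (by linarith) ht0 (by ring)
              have h7 := hadd _ _ h6 htP
              rwa [add_sub_cancel] at h7
            have h6 : 0 ≤ Ψ w x := (hDNN (hs a lam x) hB (hess b x) (hess w x) (hbp x) h5).1 r
            simp only [hF]
            linarith
          · have h3 : x ∉ {x | x ∈ N ∧ s < u x - v x} := fun h => h1 h.2
            have h4 : x ∉ {x | x ∈ N ∧ -s ≤ u x - v x} := fun h => h2 h.2
            rw [indicator_of_notMem h3, indicator_of_notMem h4]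
            have h5 : hess w x = hess v x := by
              rw [hon x hxN]
              refine hLOC _ _ x ?_
              push Not at h2
              have h6 : ∀ᶠ y in 𝓝 x, u y - v y < -s :=
                (hu.continuous.sub hv.continuous).continuousAt.eventually_lt continuousAt_const h2
              filter_upwards [h6] with y hy
              exact hrl y (by linarith)
            simp only [hF, hΨ, h5]
            exact le_of_eq (by ring)
      · have h3 : x ∉ {x | x ∈ N ∧ s < u x - v x} := fun h => hxN h.1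
        have h4 : x ∉ {x | x ∈ N ∧ -s ≤ u x - v x} := fun h => hxN h.1
        rw [indicator_of_notMem h3, indicator_of_notMem h4]
        simp only [hF, hΨ, hoff x hxN]
        exact le_of_eq (by ring)
    have hi1 : Integrable (indicator {x | x ∈ N ∧ s < u x - v x} (Ψ u)) :=
      (hintK u hu _ fun x hx => hNK hx.1).integrable_indicator (hmeasL s)
    have hi2 : Integrable (indicator {x | x ∈ N ∧ -s ≤ u x - v x} (Ψ v)) :=
      (hintK v hv _ fun x hx => hNK hx.1).integrable_indicator (hmeasR s)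
    have h1 := integral_mono (hi1.sub hi2) hFint hpt
    have h2 : ∫ x, F x = 0 := hMC
    rw [h2] at h1
    have h3 : ∫ x, (indicator {x | x ∈ N ∧ s < u x - v x} (Ψ u) -
        indicator {x | x ∈ N ∧ -s ≤ u x - v x} (Ψ v)) x =
        (∫ x in {x | x ∈ N ∧ s < u x - v x}, Ψ u x) - ∫ x in {x | x ∈ N ∧ -s ≤ u x - v x}, Ψ v x := by
      rw [← integral_indicator (hmeasL s), ← integral_indicator (hmeasR s)]
      exact integral_sub hi1 hi2
    rw [h3] at h1
    linarith
  -- the limit
  set σ : ℕ → ℝ := fun k => s₀ / ((k : ℝ) + 2) with hσ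
  have hσ0 : ∀ k, 0 < σ k := fun k => div_pos hs₀ (by positivity)
  have hσ1 : ∀ k, σ k < s₀ := fun k => by
    simp only [hσ]
    rw [div_lt_iff₀ (by positivity)]
    have : (0 : ℝ) ≤ k := Nat.cast_nonneg k
    nlinarith
  have hσa : Antitone σ := fun k l hkl => by
    simp only [hσ]
    have h1 : (k : ℝ) ≤ l := Nat.cast_le.2 hkl
    exact div_le_div_of_nonneg_left hs₀.le (by positivity) (by linarith)
  have hσt : Tendsto σ atTop (𝓝 0) := by
    have h1 : Tendsto (fun k : ℕ => (k : ℝ) + 2) atTop atTop :=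
      tendsto_atTop_add_const_right _ _ tendsto_natCast_atTop_atTop
    exact h1.const_div_atTop s₀
  have hL : Tendsto (fun k => ∫ x in {x | x ∈ N ∧ σ k < u x - v x}, Ψ u x) atTop
      (𝓝 (∫ x in ⋃ k, {x | x ∈ N ∧ σ k < u x - v x}, Ψ u x)) := by
    refine tendsto_setIntegral_of_monotone (fun k => hmeasL _) ?_ (hintK u hu _ ?_)
    · intro k l hkl x hx
      exact ⟨hx.1, lt_of_le_of_lt (hσa hkl) hx.2⟩
    · intro x hx
      obtain ⟨k, hk⟩ := mem_iUnion.1 hx
      exact hNK hk.1
  have hR : Tendsto (fun k => ∫ x in {x | x ∈ N ∧ -σ k ≤ u x - v x}, Ψ v x) atTop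
      (𝓝 (∫ x in ⋂ k, {x | x ∈ N ∧ -σ k ≤ u x - v x}, Ψ v x)) := by
    refine tendsto_setIntegral_of_antitone (fun k => hmeasR _) ?_ ⟨0, hintK v hv _ fun x hx => hNK hx.1⟩
    intro k l hkl x hx
    exact ⟨hx.1, le_trans (neg_le_neg (hσa hkl)) hx.2⟩
  have hLe : (⋃ k, {x | x ∈ N ∧ σ k < u x - v x}) = {x | x ∈ O ∧ v x < u x} := by
    ext x
    simp only [mem_iUnion, mem_ofPred_eq]
    constructor
    · rintro ⟨k, hk, hk'⟩
      exact ⟨hKO (hNK hk), by linarith [hσ0 k]⟩
    · rintro ⟨hx, hx'⟩
      have h1 : x ∈ N := hZN ⟨hx, hx'.le⟩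
      obtain ⟨k, hk⟩ := (hσt.eventually_lt_const (show (0 : ℝ) < u x - v x by linarith)).exists
      exact ⟨k, h1, hk⟩
  have hRe : (⋂ k, {x | x ∈ N ∧ -σ k ≤ u x - v x}) = {x | x ∈ O ∧ v x ≤ u x} := by
    ext x
    simp only [mem_iInter, mem_ofPred_eq]
    constructor
    · intro h
      refine ⟨hKO (hNK (h 0).1), ?_⟩
      have h1 : (0 : ℝ) ≤ u x - v x := by
        have h2 : Tendsto (fun k => -σ k) atTop (𝓝 (-0)) := hσt.neg
        rw [neg_zero] at h2
        exact le_of_tendsto' h2 fun k => (h k).2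
      linarith
    · rintro ⟨hx, hx'⟩ k
      exact ⟨hZN ⟨hx, hx'⟩, by linarith [hσ0 k]⟩
  rw [hLe] at hL
  rw [hRe] at hR
  exact le_of_tendsto_of_tendsto' hL hR fun k => key (σ k) (hσ0 k) (hσ1 k)

end Pool.Agent.helper28.SN
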