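import Pool.Agent.helper40.SN.SpecD

/-!
# Row sn:dZER
-/

set_option autoImplicit false

open scoped Pointwise ContDiff
open MeasureTheory Set Filter Topology Pool.Agent.helper83.SC Pool.Agent.helper69.SN

set_option linter.unusedVariables false

namespace Pool.Agent.helper40.SN

theorem dZER_wt {n : ℕ} (S : Finset (Fin n)) (i : Fin n) : 0 ≤ wt S 1 ∅ 0 i := by
  unfold wt
  split_ifs <;> norm_num

theorem dZER_hess {m : ℕ} (c : ℝ) (x : E m) : hess (fun _ : E m => c) x = 0 := by
  have h1 : ∀ j : Fin m, pd j (fun _ : E m => c) = fun _ => 0 := fun j => by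
    funext y
    simp [pd]
  ext i j
  simp [hess, h1, pd]

theorem dZER (hPSD : hess_psd_stmt) (haPSD : aPSD_stmt) : dZER_stmt := by
  intro m n S D h hD hh hpj hH r hr
  have hDb : D = ⊥ := Submodule.finrank_eq_zero.1 hD
  have hp : ∀ x, pj D x = 0 := fun x => by
    have h1 : pj D x ∈ D := by
      simp only [pj]
      exact Submodule.starProjection_apply_mem D x
    rw [hDb] at h1
    have h2 := (Submodule.mem_bot ℝ).1 h1
    rw [hDb]
    exact h2
  refine ⟨1 / 2, 1, 0, by norm_num, one_pos, fun a ha => ⟨fun _ => 1 / 2, contDiff_const, ?_, ?_, ?_⟩⟩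
  · intro x
    rw [dZER_hess]
    refine haPSD _ (fun i => ?_) 0 Matrix.PosSemidef.zero
    exact (hPSD (ha.1 i).1 (ha.1 i).2 x).smul (dZER_wt S i)
  · intro x hx
    have h1 : ¬ (‖pj D x‖ < r ∧ ‖x - pj D x‖ < 1) := hx
    rw [hp x, norm_zero, sub_zero] at h1
    have h2 : 1 ≤ ‖x‖ := by
      by_contra h
      exact h1 ⟨hr, not_le.1 h⟩
    simp only [Qf]
    rw [hp x, sub_zero]
    nlinarith
  · intro x _
    exact le_refl _

end Pool.Agent.helper40.SN
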