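import Pool.Agent.helper69.SN.SpecA

/-!
# Project sn (MP_d2d7b9, frozen S13995), block C: smooth mass theory (rows sn:c..)

Blueprint: /team-store/SCH_helper69e.md, section C, with one simplification: the mass estimate (C3) follows from the comparison principle
(C2), applied to the operators `dPh (hs a lam x) r (hess b x) (hess · x)` and a steep radial function; no symmetric bilinear integration by parts.

RULES. File `Pool/Agent/<seat>/SN/XX.lean`: `import Pool.Agent.helper28.SN.SpecC`, `set_option autoImplicit false`, `open scoped Pointwise ContDiff`,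
`open MeasureTheory Set Filter Topology Pool.Agent.helper83.SC Pool.Agent.helper69.SN`, `namespace Pool.Agent.helper28.SN`,
`theorem XX (h : YY_stmt) ... : XX_stmt` (`intro m n ..` first). Hypotheses may be: other statements of this file (no circles), the statements of Pool/Agent/helper83/SC/Stmt.lean
(all proved: Pool/Agent/helper83/SC/Wire.lean; `open Pool.Agent.helper83.SC`) and the statements of Pool/Agent/helper69/SN/SpecA.lean (block A).
Auxiliary lemmas prefixed `XX_`. No `sorry`, no double quotes in comments.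

Notation: `hess f x i j = pd i (pd j f) x`, `pd i f x = fderiv ℝ f x (e i)`, `E m = EuclideanSpace ℝ (Fin m)`.
-/

set_option autoImplicit false

open scoped Pointwise ContDiff
open MeasureTheory Set Filter Topology

set_option linter.unusedVariables false

namespace Pool.Agent.helper28.SN

open Pool.Agent.helper83.SC Pool.Agent.helper69.SN

/-- The Jacobian determinant of the map `(g 0, …, g (m - 1))`. -/
noncomputable def jac {m : ℕ} (g : Fin m → E m → ℝ) (x : E m) : ℝ :=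
  (Matrix.of fun i j => pd j (g i) x).det

/-- cPD. Calculus of `pd` for smooth functions: `pd i f` is smooth, with support in that of `f`, symmetric second derivatives,
product rule for finite products.
PROOF. `pd i f x = fderiv ℝ f x (e i)`: `ContDiff.fderiv_right`, `ContDiff.clm_apply`; `HasCompactSupport.fderiv_apply`; symmetry: `ContDiffAt.isSymmSndFDerivAt` (`IsSymmSndFDerivAt`), `fderiv_clm_apply`
(compare Pool/Agent/helper53/SC/HS1.lean, which proves the calculus of `hess`); product: `fderiv_finset_prod` / `HasFDerivAt.finset_prod`. -/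
def cPD_stmt : Prop := ∀ {m : ℕ} (i j : Fin m) (f : E m → ℝ), ContDiff ℝ ∞ f →
  ContDiff ℝ ∞ (pd i f) ∧ (HasCompactSupport f → HasCompactSupport (pd i f)) ∧
  (∀ x, pd i (pd j f) x = pd j (pd i f) x) ∧
  (∀ (s : Finset (Fin m)) (g : Fin m → E m → ℝ), (∀ k, ContDiff ℝ ∞ (g k)) → ∀ x,
    pd i (fun y => ∏ k ∈ s, g k y) x = ∑ k ∈ s, pd i (g k) x * ∏ l ∈ s.erase k, g l x)

/-- cIBP. Integration by parts in one variable.
PROOF. Mathlib `integral_mul_fderiv_eq_neg_fderiv_mul_of_integrable` (direction `e i`); all three integrands are continuous with compact support. -/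
def cIBP_stmt : Prop := ∀ {m : ℕ} (i : Fin m) (f g : E m → ℝ), ContDiff ℝ ∞ f → ContDiff ℝ ∞ g →
  HasCompactSupport f → ∫ x, pd i f x * g x = -∫ x, f x * pd i g x

/-- cJAC. The integral of a Jacobian determinant with one compactly supported entry vanishes.
PROOF. `jac g = ∑ τ, sign τ * ∏ i, pd (τ i) (g i)` (`Matrix.det_apply'`, transpose as needed). Separate the factor `i₀` (`Finset.mul_prod_erase`), cIBP in the variable `τ i₀`:
`∫ pd (τ i₀) (g i₀) * ∏_(i ≠ i₀) pd (τ i) (g i) = - ∫ g i₀ * ∑_(k ≠ i₀) pd (τ i₀) (pd (τ k) (g k)) * ∏_(i ≠ i₀, k) pd (τ i) (g i)` (cPD). For fixed `k ≠ i₀` the sum over `τ` with the signs vanishes: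
involution `τ ↦ τ * swap i₀ k` (`Finset.sum_involution`; `sign` changes, `pd (τ i₀) (pd (τ k) (g k))` is symmetric by cPD, the other factors do not change). -/
def cJAC_stmt : Prop := ∀ {m : ℕ} (g : Fin m → E m → ℝ) (i₀ : Fin m), (∀ i, ContDiff ℝ ∞ (g i)) →
  HasCompactSupport (g i₀) → ∫ x, jac g x = 0

/-- cMDZ. The same for mixed discriminants of Hessians.
PROOF. `m! mD (hess f) = ∑ σ, det (i, j ↦ pd i (pd j (f (σ i))) x) = ∑ σ, jac (fun i => pd i (f (σ i))) x` (symmetry: cPD); in the term of `σ` the entry `i = σ⁻¹ i₀` has compact support: cJAC.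
Sum of integrals: every `jac` here is continuous with compact support (`jac g x = 0` off the support of `g i₀`), hence integrable. -/
def cMDZ_stmt : Prop := ∀ {m : ℕ} (f : Fin m → E m → ℝ) (i₀ : Fin m), (∀ i, ContDiff ℝ ∞ (f i)) →
  HasCompactSupport (f i₀) → ∫ x, mD (fun j => hess (f j) x) = 0

/-- cMCF. Mass conservation: the functions `F j` and `G j` agree off a compact set.
PROOF. Telescope: `H k j = F j` for `j < k`, `G j` for `j ≥ k`; `mD (hess H (k+1)) - mD (hess H k) = mD (Function.update _ k (hess (F k) - hess (G k)))` (`mD_update_add_of`, `mD_update_smul_of`) is the mixed discriminant of the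
Hessians of a family whose `k`-th member `F k - G k` has compact support: cMDZ. Every difference is continuous with compact support. -/
def cMCF_stmt : Prop := ∀ {m : ℕ} (F G : Fin m → E m → ℝ) (Z : Set (E m)), IsCompact Z →
  (∀ i, ContDiff ℝ ∞ (F i)) → (∀ i, ContDiff ℝ ∞ (G i)) → (∀ i, ∀ x ∉ Z, F i x = G i x) →
  ∫ x, (mD (fun j => hess (F j) x) - mD (fun j => hess (G j) x)) = 0

/-- cCNT. Continuity of the operators (`aCNT_stmt`, `continuous_hess_of`). -/
def cCNT_stmt : Prop := ∀ {m n : ℕ} (a : Fin n → E m → ℝ) (lam : Fin n → ℝ) (b u : E m → ℝ) (r : ℕ),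
  (∀ i, ContDiff ℝ ∞ (a i)) → ContDiff ℝ ∞ b → ContDiff ℝ ∞ u →
  Continuous fun x => dPh (hs a lam x) r (hess b x) (hess u x)

/-- cMCP. Mass conservation for the operators `dPh (hs a lam ·) r (hess b ·)`; `r = 0` is `Ph` (aDER).
PROOF. For every `T` the matrices `slotA (hs a lam x) T r (hess b x) (hess u x) j` are the Hessians of the functions `fun y => lam i * a i y`, `b`, `u` (`hess_smul_of`); cMCF for `u` and `v`.
The difference is continuous (cCNT) with compact support, so the sum over `T` can be taken out of the integral. -/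
def cMCP_stmt : Prop := ∀ {m n : ℕ} (a : Fin n → E m → ℝ) (lam : Fin n → ℝ) (b u v : E m → ℝ) (r : ℕ)
  (Z : Set (E m)), IsCompact Z → (∀ i, ContDiff ℝ ∞ (a i)) → ContDiff ℝ ∞ b → ContDiff ℝ ∞ u →
  ContDiff ℝ ∞ v → (∀ x ∉ Z, u x = v x) →
  ∫ x, (dPh (hs a lam x) r (hess b x) (hess u x) - dPh (hs a lam x) r (hess b x) (hess v x)) = 0

/-! ### Regularized maximum -/

/-- The properties of the regularization `θ` of `t ↦ max t 0`. -/
structure Reg (θ : ℝ → ℝ) : Prop where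
  smooth : ContDiff ℝ ∞ θ
  zero : ∀ t, t ≤ -1 → θ t = 0
  self : ∀ t, 1 ≤ t → θ t = t
  ge : ∀ t, max t 0 ≤ θ t
  le : ∀ t, θ t ≤ max t 0 + 1
  d0 : ∀ t, 0 ≤ deriv θ t
  d1 : ∀ t, deriv θ t ≤ 1
  d2 : ∀ t, 0 ≤ deriv (deriv θ) t

/-- cREG. There is such a function.
PROOF. `θ t = ∫ s, max (t - s) 0 * ρ s` with a smooth even bump `ρ ≥ 0` supported in `[-1,1]` of integral `1` (`ContDiffBump`, `contDiff_convolution`); or: `β t = Real.smoothTransition ((t + 1)/2)`, which satisfies `β t + β (-t) = 1`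
(`Real.smoothTransition` is symmetric: `smoothTransition x + smoothTransition (1 - x) = 1` from the definition), is nondecreasing, `0` for `t ≤ -1`, `1` for `t ≥ 1`; `θ t = ∫ s in (-1)..t, β s`: `θ' = β`,
`θ 1 = 1` by the symmetry. -/
def cREG_stmt : Prop := ∃ θ : ℝ → ℝ, Reg θ

/-- The regularized maximum of `u` and `v` at scale `s`. -/
noncomputable def rmx {m : ℕ} (θ : ℝ → ℝ) (s : ℝ) (u v : E m → ℝ) (x : E m) : ℝ :=
  v x + s * θ ((u x - v x) / s)

/-- cRMX. Elementary properties of the regularized maximum.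
PROOF. Values: `Reg`. Hessian: chain rule, `hess (rmx) = (1 - θ') hess v + θ' hess u + s⁻¹ θ'' ∇(u - v) ⊗ ∇(u - v)`, `θ'`, `θ''` at `(u x - v x)/s`. -/
def cRMX_stmt : Prop := ∀ {m : ℕ} (θ : ℝ → ℝ) (s : ℝ) (u v : E m → ℝ), Reg θ → 0 < s →
  ContDiff ℝ ∞ u → ContDiff ℝ ∞ v →
  ContDiff ℝ ∞ (rmx θ s u v) ∧
  (∀ x, max (u x) (v x) ≤ rmx θ s u v x ∧ rmx θ s u v x ≤ max (u x) (v x) + s) ∧
  (∀ x, u x ≤ v x - s → rmx θ s u v x = v x) ∧
  (∀ x, v x ≤ u x - s → rmx θ s u v x = u x) ∧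
  (∀ x, ∃ t : ℝ, 0 ≤ t ∧ t ≤ 1 ∧
    (hess (rmx θ s u v) x - ((1 - t) • hess v x + t • hess u x)).PosSemidef)

/-- cLOC. Hessians are local.
PROOF. `fderiv` of functions that agree near `x` (`Filter.EventuallyEq.fderiv_eq`, twice). -/
def cLOC_stmt : Prop := ∀ {m : ℕ} (u v : E m → ℝ) (x : E m), (∀ᶠ y in 𝓝 x, u y = v y) →
  hess u x = hess v x

/-! ### Comparison -/

/-- cCMP (C2). The comparison principle on an open set `O`.
PROOF. Let `Z = {x ∈ O | v x ≤ u x}` (compact). Take `χ` smooth, `0 ≤ χ ≤ 1`, compact support in `O`, `χ = 1` on an open set `N ⊇ Z` (`exists_contDiff_tsupport_subset` or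
`exists_smooth_one_nhds_of_subset_interior`; in finite dimension: `exists_contMDiff_support_eq..`, or `IsCompact`, `exists_compact_between`). On the compact set `tsupport χ \ N` one has `u - v ≤ -s₀ < 0`. For `0 < s ≤ s₀` let
`w = v + χ * s θ((u - v)/s)`. `w = v` near every point off `N` and `w = rmx θ s u v` near every point of `N`. cMCP for `w, v` (`w = v` off `tsupport χ`): `∫ (Ψ(w) - Ψ(v)) = 0`, `Ψ(w) x = dPh (hs a lam x) r (hess b x) (hess w x)`.
The integrand is `0` off `N` (cLOC), `= Ψ(u) - Ψ(v)` at the points of `N` with `u - v > s` and `≥ - Ψ(v)` at the points of `N` with `-s ≤ u - v ≤ s` (there `hess w x ∈ GG` by cRMX and aCLO, so `Ψ(w) ≥ 0` by aDNN), and `0` if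
`u - v < -s` (cLOC). So `∫_(N, u - v > s) Ψ(u) ≤ ∫_(N, u - v ≥ -s) Ψ(v)`. Let `s → 0` (`Ψ(u), Ψ(v) ≥ 0` on `O`, continuous (cCNT), bounded on `tsupport χ`; monotone or dominated convergence, `s = s₀/(k+1)`);
`{x ∈ O | v x < u x} ⊆ Z ⊆ N`. `hs a lam x` is `Psd` for `0 ≤ lam` (`hess_psd_of`). -/
def cCMP_stmt : Prop := ∀ {m n : ℕ} (a : Fin n → E m → ℝ) (lam : Fin n → ℝ) (b u v : E m → ℝ) (r : ℕ)
  (O : Set (E m)), (∀ i, SmC (a i)) → (∀ i, 0 ≤ lam i) → SmC b → ContDiff ℝ ∞ u → ContDiff ℝ ∞ v →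
  IsOpen O → IsCompact {x | x ∈ O ∧ v x ≤ u x} →
  (∀ x ∈ O, hess u x ∈ GG (hs a lam x) ∧ hess v x ∈ GG (hs a lam x)) →
  ∫ x in {x | x ∈ O ∧ v x < u x}, dPh (hs a lam x) r (hess b x) (hess u x) ≤
    ∫ x in {x | x ∈ O ∧ v x ≤ u x}, dPh (hs a lam x) r (hess b x) (hess v x)

/-- cRAD. A radial function, constant on the ball of radius `ρ`, steep near the sphere of radius `2 ρ`.
PROOF. `g x = θ(1 + c (‖x‖² - (3/2)ρ²)..)`: take `g x = θ (4 * (‖x‖² - 2 ρ²)/ρ² )`: it vanishes for `‖x‖² ≤ 7/4 ρ²`, in particular for `‖x‖ ≤ ρ`, and for `‖x‖² ≥ 3 ρ²` it is `≥ 4`. Convex and smooth; its Hessian is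
`θ' (8/ρ²) 1 + θ'' (64/ρ⁴) x xᵀ`, continuous, hence `≤ C 1` on the compact ball (for the bound: every continuous family of symmetric matrices on a compact set is `≤ C 1`, e.g. `C = m sup |entries|`), uses cREG. -/
def cRAD_stmt : Prop := ∀ (m : ℕ) (ρ : ℝ), 0 < ρ → ∃ (g : E m → ℝ) (C : ℝ), SmC g ∧ 0 ≤ C ∧
  (∀ x, ‖x‖ ≤ ρ → g x = 0) ∧ (∀ x, 0 ≤ g x) ∧ (∀ x, 3 * ρ ^ 2 ≤ ‖x‖ ^ 2 → 1 ≤ g x) ∧
  (∀ x, ‖x‖ ≤ 2 * ρ → (C • (1 : Mat m) - hess g x).PosSemidef)

/-- cMON. Monotonicity of the operators in positive semidefinite arguments (`mD_mono_of`, `mD_nonneg_of`), and nonnegativity. -/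
def cMON_stmt : Prop := ∀ {m n : ℕ} (B : Fin n → Mat m) (A M N : Mat m) (r : ℕ), Psd B → A.PosSemidef →
  M.PosSemidef → (N - M).PosSemidef → 0 ≤ dPh B r A M ∧ dPh B r A M ≤ dPh B r A N

/-- cCLN (C3). The mass estimate. The constant depends only on `m` and `ρ`.
PROOF. `v = -(L + 1) + (2 L + 2) g` (cRAD). For `‖x‖ ≤ ρ`: `v = -(L + 1) < X`. The set `{‖x‖ < 2ρ, v ≤ X}` is contained in `{g ≤ (2L+1)/(2L+2)} ⊆ {‖x‖² < 3ρ²}`, so it is compact. `hess v` is positive semidefinite, so in the class (aPSD).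
cCMP with `O = ball 0 (2ρ)`, `u = X`; left side: the integrand is `≥ 0` on `O` (aDNN), and the domain contains `closedBall 0 ρ`; right side: `hess v x ≤ (2L+2) C 1` on `O`, cMON; enlarge the domain to the ball. -/
def cCLN_stmt : Prop := ∀ (m : ℕ) (ρ : ℝ), 0 < ρ → ∃ C : ℝ, 0 ≤ C ∧ ∀ {n : ℕ} (a : Fin n → E m → ℝ)
  (lam : Fin n → ℝ) (b X : E m → ℝ) (r : ℕ) (L : ℝ), (∀ i, SmC (a i)) → (∀ i, 0 ≤ lam i) → SmC b →
  ContDiff ℝ ∞ X → 0 ≤ L → (∀ x, ‖x‖ ≤ 2 * ρ → |X x| ≤ L) →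
  (∀ x, ‖x‖ ≤ 2 * ρ → hess X x ∈ GG (hs a lam x)) →
  ∫ x in Metric.closedBall 0 ρ, dPh (hs a lam x) r (hess b x) (hess X x) ≤
    ∫ x in Metric.ball 0 (2 * ρ), dPh (hs a lam x) r (hess b x) ((C * (L + 1)) • (1 : Mat m))

/-! ### Functions of few variables -/

/-- cPRJ. Smooth convex functions of the projection to `D`.
PROOF. `exists_smooth_of` for `h` gives `g k`; take `g k ∘ D.starProjection` (composition with a continuous linear map). `hess (g ∘ P) x` applied to `v ∈ Dᗮ` is `0`: the function does not change in the direction `v`, so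
`∑ j, v j * pd j f = 0` everywhere (`fderiv f x v = 0`), and `(hess f x).mulVec v i = ∑ j, pd i (pd j f) x * v j = pd i (∑ j, v j * pd j f) x = 0`. -/
def cPRJ_stmt : Prop := ∀ {m : ℕ} (D : Submodule ℝ (E m)) (h : E m → ℝ), CV h →
  (∀ x, h x = h (D.starProjection x)) →
  ∃ g : ℕ → E m → ℝ, (∀ k, SmC (g k)) ∧ (∀ x, Tendsto (fun k => g k x) atTop (𝓝 (h x))) ∧
    ∀ k x, ∀ v ∈ Dᗮ, (hess (g k) x).mulVec (fun i => v i) = 0

/-- cVB. More than `dim D` functions of the projection to `D`: the mixed Monge-Ampere functional vanishes.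
PROOF. cPRJ for `F j`, `j ∈ T`, `exists_smooth_of` for the others; `tendsto_B_of`, `B_smooth_of`, `aRNK_stmt`. -/
def cVB_stmt : Prop := ∀ {m : ℕ} (D : Submodule ℝ (E m)) (F : Fin m → E m → ℝ) (T : Finset (Fin m))
  (φ : E m → ℝ), Test φ → (∀ j, CV (F j)) → Module.finrank ℝ D < T.card →
  (∀ j ∈ T, ∀ x, F j x = F j (D.starProjection x)) → B φ F = 0

/-- cVAN. The masses converge to zero.
PROOF. `φ` with `φ = 1` on `ball 0 (R + 1)` (`exists_test`); `∫_(closedBall 0 R) mD (hess ..) ≤ ∫ φ mD (hess ..) = B φ (G l)` (`mD_nonneg_of`, `hess_psd_of`, `B_smooth_of`) `→ B φ F = 0` (`tendsto_B_of`, cVB). -/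
def cVAN_stmt : Prop := ∀ {m : ℕ} (D : Submodule ℝ (E m)) (F : Fin m → E m → ℝ) (G : ℕ → Fin m → E m → ℝ)
  (T : Finset (Fin m)) (R : ℝ), (∀ j, CV (F j)) → (∀ l j, SmC (G l j)) →
  (∀ j x, Tendsto (fun l => G l j x) atTop (𝓝 (F j x))) → Module.finrank ℝ D < T.card →
  (∀ j ∈ T, ∀ x, F j x = F j (D.starProjection x)) →
  Tendsto (fun l => ∫ x in Metric.closedBall 0 R, mD (fun j => hess (G l j) x)) atTop (𝓝 0)

/-- cBDD. The masses are bounded (same proof: a convergent sequence `B φ (G l)` is bounded). -/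
def cBDD_stmt : Prop := ∀ {m : ℕ} (F : Fin m → E m → ℝ) (G : ℕ → Fin m → E m → ℝ) (R : ℝ),
  (∀ j, CV (F j)) → (∀ l j, SmC (G l j)) → (∀ j x, Tendsto (fun l => G l j x) atTop (𝓝 (F j x))) →
  ∃ C : ℝ, ∀ l, ∫ x in Metric.closedBall 0 R, mD (fun j => hess (G l j) x) ≤ C

/-- cLIM (the case `s = d - 1` of the capacity induction, and the case `d = 1` of the end). `h i` are functions of the projection to `D`, `|S| + 2 > dim D`: the second derivatives of the MAP operators have small mass.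
PROOF. cCLN with `lam = wt S K ∅ 0`, `b = a l j`, `r = 2`: the integral is `≤ ∫_(ball 2ρ) dPh (hs (a l) lam) 2 (hess (a l j)) (C (L+1) 1)`. Expand: sum over `T` of `descFactorial * mD (slotA ..)`, the term vanishes unless `T ⊆ S`
(a zero matrix in a slot: `mD_update_smul_of` with `c = 0`) and is `K ^ |T|` times a mixed discriminant of the Hessians of `a l i` (`i ∈ T`), `a l j` (twice) and of `C (L+1) ‖x‖²/2` (`hess_normSq_of`), if `|T| + 2 ≤ m` (otherwise `descFactorial = 0`).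
`|T| < |S|`: cBDD, the factor `K ^ (|T| - |S|) ≤ 1/K`. `T = S`: cVAN (`|S| + 2 > dim D` slots with functions of the projection). -/
def cLIM_stmt : Prop := ∀ {m n : ℕ} (D : Submodule ℝ (E m)) (h : Fin n → E m → ℝ)
  (a : ℕ → Fin n → E m → ℝ) (S : Finset (Fin n)) (j : Fin n) (ρ L : ℝ), 0 < ρ → 0 ≤ L →
  (∀ i, CV (h i)) → (∀ i x, h i x = h i (D.starProjection x)) → (∀ l i, SmC (a l i)) →
  (∀ i x, Tendsto (fun l => a l i x) atTop (𝓝 (h i x))) → Module.finrank ℝ D < S.card + 2 →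
  ∀ τ : ℝ, 0 < τ → ∃ K₀ : ℝ, 1 ≤ K₀ ∧ ∀ K : ℝ, K₀ ≤ K → ∀ᶠ l in atTop, ∀ X : E m → ℝ,
    ContDiff ℝ ∞ X → (∀ x, ‖x‖ ≤ 2 * ρ → |X x| ≤ L) →
    (∀ x, ‖x‖ ≤ 2 * ρ → hess X x ∈ GG (hs (a l) (wt S K ∅ 0) x)) →
    (K ^ S.card)⁻¹ * ∫ x in Metric.closedBall 0 ρ,
      dPh (hs (a l) (wt S K ∅ 0) x) 2 (hess (a l j) x) (hess X x) ≤ τ

end Pool.Agent.helper28.SN
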