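import Pool.Agent.helper83.SC.Wire
import Pool.Agent.helper28.SN.CCMP
import Pool.Agent.helper11.SN.cMCP
import Pool.Agent.helper13.SN.cMCF
import Pool.Agent.helper13.SN.cRAD
import Pool.Agent.helper39.SN.cPRJ
import Pool.Agent.helper46.SN.cVB
import Pool.Agent.helper50.SN.cCNT
import Pool.Agent.helper52.SN.cREG
import Pool.Agent.helper76.SN.cCLN
import Pool.Agent.helper77.SN.cBDD
import Pool.Agent.helper77.SN.cMDZ
import Pool.Agent.helper89.SN.cJAC
import Pool.Agent.helper92.SN.cLIM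
import Pool.Agent.helper79.SN.cIBP
import Pool.Agent.helper79.SN.cVAN
import Pool.Agent.helper85.SN.cMON
import Pool.Agent.helper90.SN.cPD
import Pool.Agent.helper93.SN.cRMX

/-!
# Project sn: assembly of block C (from block A)
-/

set_option autoImplicit false

open scoped Pointwise ContDiff
open MeasureTheory Set Filter Topology Pool.Agent.helper83.SC Pool.Agent.helper69.SN

namespace Pool.Agent.helper28.SN

/-! ## The SC library -/

theorem w_loc_lip : loc_lip_stmt := loc_lip_of loc_bdd_of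
theorem w_diag : tendsto_diag_stmt := tendsto_diag_of w_loc_lip
theorem w_sel : sel_integrable_stmt :=
  sel_integrable_of ae_argmin_unique_of alexandrov_smooth_of exists_smooth_of w_loc_lip w_diag
theorem w_tA : tendsto_A_stmt := tendsto_A_of ae_argmin_unique_of w_sel w_loc_lip w_diag
theorem w_As : A_smooth_stmt :=
  A_smooth_of alexandrov_smooth_of w_tA hess_add_of hess_normSq_of continuous_hess_of
theorem w_Bs : B_smooth_stmt := B_smooth_of mD_polar_of hess_add_of hess_sum_of continuous_hess_of w_As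
theorem w_tB : tendsto_B_stmt := tendsto_B_of w_tA
theorem w_test : exists_test_stmt := exists_test

/-! ## Block C -/

/-- cLOC: Hessians are local. -/
theorem w_LOC : cLOC_stmt := by
  intro m u v x h
  have h1 : ∀ j : Fin m, ∀ᶠ y in 𝓝 x, pd j u y = pd j v y := fun j => by
    filter_upwards [h.eventually_nhds] with y hy
    simp only [pd]
    rw [Filter.EventuallyEq.fderiv_eq hy]
  ext i j
  simp only [hess, Matrix.of_apply]
  show fderiv ℝ (pd j u) x (e i) = fderiv ℝ (pd j v) x (e i)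
  rw [Filter.EventuallyEq.fderiv_eq (h1 j)]

theorem w_MCF : cMCF_stmt :=
  cMCF (cMDZ cPD (cJAC cPD cIBP)) hess_add_of hess_smul_of mD_update_add_of mD_update_smul_of
    continuous_hess_of w_LOC

theorem w_MCP : cMCP_stmt := cMCP w_MCF

theorem w_CNT (hCNT : aCNT_stmt) : cCNT_stmt := cCNT hCNT continuous_hess_of

theorem w_CMP (hCNT : aCNT_stmt) (hCLO : aCLO_stmt) (hDNN : aDNN_stmt) : cCMP_stmt :=
  cCMP cREG cRMX w_LOC w_MCP (w_CNT hCNT) hCLO hDNN hess_psd_of

theorem w_CLN (hCNT : aCNT_stmt) (hCLO : aCLO_stmt) (hDNN : aDNN_stmt) (hPSD : aPSD_stmt) : cCLN_stmt :=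
  cCLN (cRAD cREG hess_psd_of continuous_hess_of) (w_CMP hCNT hCLO hDNN) cMON (w_CNT hCNT) hPSD hDNN

theorem w_PRJ : cPRJ_stmt := cPRJ cPD exists_smooth_of

theorem w_VB (hRNK : aRNK_stmt) : cVB_stmt := cVB w_PRJ hRNK exists_smooth_of hess_psd_of w_Bs w_tB

theorem w_VAN (hRNK : aRNK_stmt) : cVAN_stmt :=
  cVAN (w_VB hRNK) w_test mD_nonneg_of hess_psd_of w_Bs w_tB continuous_hess_of

theorem w_BDD : cBDD_stmt := cBDD w_test mD_nonneg_of hess_psd_of w_Bs w_tB continuous_hess_of

theorem w_LIM (hCNT : aCNT_stmt) (hCLO : aCLO_stmt) (hDNN : aDNN_stmt) (hPSD : aPSD_stmt)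
    (hRNK : aRNK_stmt) : cLIM_stmt :=
  cLIM (w_CLN hCNT hCLO hDNN hPSD) (w_VAN hRNK) w_BDD mD_nonneg_of hess_psd_of hess_normSq_of
    continuous_hess_of

end Pool.Agent.helper28.SN
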